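import Mathlib

/-! Degenerate graphs and decompositions into forests of bounded diameter. -/

namespace Pool.Agent.MP_d3e607_co.Pin

/-- `G` is `k`-degenerate: every nonempty set of vertices has a member with at most `k` neighbours
in the set. -/
def Degen (k : ℕ) {V : Type} (G : SimpleGraph V) : Prop :=
  ∀ S : Set V, S.Nonempty → ∃ v ∈ S, (G.neighborSet v ∩ S).ncard ≤ k

/-- The spanning subgraph formed by the edges of colour `i`. -/
def cls {V : Type} (G : SimpleGraph V) {m : ℕ} (c : G.edgeSet → Fin m) (i : Fin m) :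
    SimpleGraph V :=
  SimpleGraph.fromEdgeSet {e | ∃ h : e ∈ G.edgeSet, c ⟨e, h⟩ = i}

/-- The edges of `G` split into `m` forests, all components of the `i`-th having diameter at most
`d i`. -/
def Splits {V : Type} (G : SimpleGraph V) {m : ℕ} (d : Fin m → ℕ) : Prop :=
  ∃ c : G.edgeSet → Fin m, ∀ i, (cls G c i).IsAcyclic ∧
    ∀ u v, (cls G c i).Reachable u v → (cls G c i).dist u v ≤ d i

end Pool.Agent.MP_d3e607_co.Pin
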