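import Pool.Agent.MP_d3e607_co.Pin.Defs

/-! Decompositions of all degenerate graphs give a schedule. -/

namespace Pool.Agent.MP_d3e607_co.Pin

open Finset Function

theorem centre {V : Type} [Finite V] {H : SimpleGraph V} (hH : H.IsAcyclic) {d : ℕ}
    (hd : ∀ u v, H.Reachable u v → H.dist u v ≤ d) :
    ∃ (p : V → V) (h : V → ℕ), (∀ v, h v ≤ d / 2) ∧ ∀ u v, H.Adj v u → u ≠ p v → h v < h u := by
  have mx : ∀ (f : V → V → ℕ) v, ∃ x, H.Reachable v x ∧ ∀ y, H.Reachable v y → f v y ≤ f v x :=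
    fun f v => Set.exists_max_image {x | H.Reachable v x} (f v) (Set.toFinite _) ⟨v, .refl v⟩
  choose x x1 x2 using mx H.dist
  choose z z1 z2 using mx fun _ u => H.dist u (x u)
  choose q q1 q2 using fun v => (x1 v).exists_path_of_dist
  refine ⟨fun v => (q v).snd, fun v => H.dist v (x v) - (H.dist (z v) (x (z v)) + 1) / 2,
    fun v => ?_, fun u v h hu => ?_⟩
  · have := z2 v v (.refl v)
    have := hd _ _ (x1 (z v))
    beta_reduce
    omega
  · have a := z2 u (z v) (h.symm.reachable.trans (z1 v))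
    have b := z2 v (z u) (h.reachable.trans (z1 u))
    have c := (z1 v).symm.dist_triangle_left (x (z v))
    have e := x2 v (z v) (z1 v)
    have f := x2 v (x (z v)) ((z1 v).trans (x1 _))
    rw [SimpleGraph.dist_comm] at e
    have g := x2 u (x v) (h.symm.reachable.trans (x1 v))
    obtain ⟨w, w1, w2⟩ := (h.symm.reachable.trans (x1 v)).exists_path_of_dist
    have i : (⟨w, w1⟩ : H.Path u (x v)) = ⟨.cons h.symm (q v),
        (q1 v).cons fun hs => hu (hH.eq_snd_of_adj_start (q1 v) h hs)⟩ :=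
      (hH.subsingleton_path _ _).elim _ _
    have j : w.length = (q v).length + 1 := congr(($i).1.length)
    rw [q2, w2] at j
    beta_reduce
    omega

theorem pick {α : Type} {S : Set α} (hS : S.Finite) {P : ℕ → α → Prop}
    (hP : ∀ n a, P (n + 1) a → P n a) (h : ∀ n, ∃ a ∈ S, P n a) : ∃ a, ∀ n, P n a := by
  by_contra hn
  push Not at hn
  choose f hf using hn
  obtain ⟨N, hN⟩ := (hS.image f).bddAbove
  obtain ⟨a, ha, h1⟩ := h N
  exact hf a (Nat.decreasingInduction (motive := fun n _ => P n a) (fun n _ => hP n a) h1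
    (hN ⟨a, ha, rfl⟩))

/-- the state `y` survives `n` rounds -/
def Win {m : ℕ} (k : ℕ) (h : Fin m → ℕ) : ℕ → (Fin m → ℕ) → Prop
  | 0, y => y ≤ h
  | n + 1, y => y ≤ h ∧ ∃ (U : Finset (Fin m)) (z : Fin m → ℕ),
      k ≤ U.card ∧ (∀ c ∈ U, y c < z c) ∧ Win k h n z

variable {m k : ℕ}

theorem Win.le {h y : Fin m → ℕ} : ∀ {n}, Win k h n y → y ≤ h
  | 0, a => a
  | _ + 1, a => a.1

theorem Win.pred {h : Fin m → ℕ} : ∀ n y, Win k h (n + 1) y → Win k h n y
  | 0, _, a => a.1
  | n + 1, _, ⟨a, U, z, b, c, d⟩ => ⟨a, U, z, b, c, Win.pred n z d⟩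

theorem sched {h : Fin m → ℕ} (H : ∀ n, ∃ y, Win k h n y) : ∃ U : ℕ → Finset (Fin m),
    (∀ t, k ≤ (U t).card) ∧ ∀ i t, ∃ r, t ≤ r ∧ r ≤ t + h i ∧ i ∉ U r := by
  obtain ⟨y, hy⟩ := pick (Set.finite_Iic h) Win.pred fun n => (H n).imp fun y a => ⟨a.le, a⟩
  have st : ∀ y : {y // ∀ n, Win k h n y}, ∃ (U : Finset (Fin m)) (z : {y // ∀ n, Win k h n y}),
      k ≤ U.card ∧ ∀ c ∈ U, y.1 c < z.1 c := fun y => by
    obtain ⟨a, ha⟩ := pick (S := Set.univ ×ˢ Set.Iic h) (Set.finite_univ.prod (Set.finite_Iic h))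
      (P := fun n (a : Finset (Fin m) × (Fin m → ℕ)) =>
        k ≤ a.1.card ∧ (∀ c ∈ a.1, y.1 c < a.2 c) ∧ Win k h n a.2)
      (fun n a b => ⟨b.1, b.2.1, Win.pred n _ b.2.2⟩) fun n => by
        obtain ⟨_, U, z, b⟩ := y.2 (n + 1)
        exact ⟨(U, z), ⟨trivial, b.2.2.le⟩, b⟩
    exact ⟨a.1, ⟨a.2, fun n => (ha n).2.2⟩, (ha 0).1, (ha 0).2.1⟩
  choose U z h1 h2 using st
  refine ⟨fun t => U (z^[t] ⟨y, hy⟩), fun t => h1 _, fun i t => ?_⟩
  by_contra hn
  push Not at hn
  have : ∀ x, x ≤ h i + 1 → x ≤ (z^[t + x] ⟨y, hy⟩).1 i := fun x => by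
    induction x with
    | zero => exact fun _ => Nat.zero_le _
    | succ x ih =>
      intro hx
      rw [← add_assoc, iterate_succ_apply']
      exact (ih (by omega)).trans_lt (h2 _ i (hn _ (by omega) (by omega)))
  exact absurd ((this _ le_rfl).trans (((z^[t + (h i + 1)] ⟨y, hy⟩).2 0).le i)) (by omega)

/-- vertices: a family and a member of it -/
abbrev Vx (k M N : ℕ) : Type := {l : List (Fin k → Fin M) // l.length ≤ N} × Fin M

instance {M N : ℕ} : Finite {l : List (Fin k → Fin M) // l.length ≤ N} :=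
  List.finite_length_le (Fin k → Fin M) N

/-- each `k`-tuple of a family is the parent set of a new family -/
def gr (k M N : ℕ) : SimpleGraph (Vx k M N) :=
  SimpleGraph.fromRel fun a b => ∃ f j, a.1.1 = f :: b.1.1 ∧ b.2 = f j

theorem gr_degen (k M N : ℕ) : Degen k (gr k M N) := fun S hS => by
  obtain ⟨v, hv, hm⟩ := Set.exists_max_image S (fun v => v.1.1.length) (Set.toFinite _) hS
  refine ⟨v, hv, (Set.ncard_le_ncard (t := (fun j : Fin k => ((⟨v.1.1.tail,
    by have := v.1.2; simp only [List.length_tail]; omega⟩, v.1.1.headD (fun _ => v.2) j) :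
      Vx k M N)) '' Set.univ) ?_).trans ((Set.ncard_image_le).trans (by simp))⟩
  rintro w ⟨⟨_, ⟨f, j, a, b⟩ | ⟨f, j, a, b⟩⟩, hw⟩
  · exact ⟨j, trivial, Prod.ext (Subtype.ext (by simp [a])) (by simp [a, b])⟩
  · have := hm w hw
    simp [a] at this

theorem win_of {d : Fin m → ℕ}
    (H : ∀ (V : Type) [Finite V] (G : SimpleGraph V), Degen k G → Splits G d) (N : ℕ) :
    ∃ y, Win k (fun i => d i / 2) N y := by
  classical
  obtain ⟨M, hM⟩ : ∃ M, (Iic fun i => d i / 2).card * (k + k * m) < M := ⟨_, Nat.lt_succ_self _⟩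
  obtain ⟨c, hc⟩ := H _ _ (gr_degen k M N)
  choose p h h1 h2 using fun i => centre (hc i).1 (hc i).2
  have tw : ∀ (l : {l : List (Fin k → Fin M) // l.length ≤ N}) (E : Finset (Fin M)),
      E.card ≤ k * m → ∃ (y : Fin m → ℕ) (f : Fin (k + 1) ↪ Fin M),
        ∀ j, f j ∉ E ∧ ∀ i, h i (l, f j) = y i := fun l E hE => by
    obtain ⟨y, _, hy⟩ := exists_lt_card_fiber_of_mul_lt_card_of_maps_to (s := univ)
      (t := Iic fun i => d i / 2) (f := fun a i => h i (l, a)) (n := k + k * m)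
      (fun a _ => mem_Iic.2 fun i => h1 i _) (by simpa using hM)
    obtain ⟨f, hf⟩ := Embedding.exists_of_card_le_finset (α := Fin (k + 1))
      (s := (univ.filter fun a => (fun i => h i (l, a)) = y) \ E) (by
        have := le_card_sdiff E (univ.filter fun a => (fun i => h i (l, a)) = y)
        rw [Fintype.card_fin]
        omega)
    refine ⟨y, f, fun j => ?_⟩
    have := mem_sdiff.1 (mem_coe.1 (hf (Set.mem_range_self j)))
    exact ⟨this.2, congrFun (mem_filter.1 this.1).2⟩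
  have key : ∀ n (l : {l : List (Fin k → Fin M) // l.length ≤ N}) (y : Fin m → ℕ)
      (f : Fin (k + 1) ↪ Fin M), l.1.length + n = N → (∀ j i, h i (l, f j) = y i) →
      Win k (fun i => d i / 2) n y := fun n => by
    induction n with
    | zero => exact fun l y f _ hy i => hy 0 i ▸ h1 i _
    | succ n ih =>
      intro l y f hl hy
      let l' : {l : List (Fin k → Fin M) // l.length ≤ N} :=
        ⟨(fun j => f j.succ) :: l.1, by rw [List.length_cons]; omega⟩
      obtain ⟨z, g, hg⟩ := tw l' (univ.image fun a : Fin k × Fin m => (p a.2 (l, f a.1.succ)).2)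
        (card_image_le.trans (by simp))
      have ad : ∀ j : Fin k, (gr k M N).Adj (l, f j.succ) (l', g 0) := fun j =>
        ⟨fun e => by simpa [l'] using congr(($e).1.1.length), .inr ⟨_, j, rfl, rfl⟩⟩
      have ad' : ∀ j, (cls _ c (c ⟨_, ad j⟩)).Adj (l, f j.succ) (l', g 0) := fun j =>
        (SimpleGraph.fromEdgeSet_adj _).2 ⟨⟨ad j, rfl⟩, (ad j).ne⟩
      have lt : ∀ j, h (c ⟨_, ad j⟩) (l, f j.succ) < h (c ⟨_, ad j⟩) (l', g 0) := fun j =>
        h2 _ _ _ (ad' j) fun e => (hg 0).1 (mem_image.2 ⟨(j, _), mem_univ _, congr(($e).2).symm⟩)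
      have pa : ∀ j, (l, f j.succ) = p (c ⟨_, ad j⟩) (l', g 0) := fun j => by
        by_contra e
        exact (lt j).not_gt (h2 _ _ _ (ad' j).symm e)
      have inj : Injective fun j => c ⟨_, ad j⟩ := fun a b e =>
        Fin.succ_injective _ (f.injective congr($((pa a).trans ((congrArg (p · (l', g 0)) e).trans
          (pa b).symm)).2))
      refine ⟨fun i => hy 0 i ▸ h1 i _, univ.image fun j => c ⟨_, ad j⟩, z,
        by rw [card_image_of_injective _ inj]; simp, fun i hi => ?_,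
        ih l' z g (by simp only [l', List.length_cons]; omega) fun j => (hg j).2⟩
      obtain ⟨j, _, rfl⟩ := mem_image.1 hi
      rw [← hy j.succ, ← (hg 0).2]
      exact lt j
  obtain ⟨y, f, hf⟩ := tw ⟨[], Nat.zero_le _⟩ ∅ (Nat.zero_le _)
  exact ⟨y, key N _ y f (by simp) fun j => (hf j).2⟩

end Pool.Agent.MP_d3e607_co.Pin
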