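import Pool.Agent.MP_d3e607_co.Pin.Up
import Pool.Agent.MP_d3e607_co.Pin.Low

/-! Forest decompositions of degenerate graphs and pinwheel schedules. -/

namespace Pool.Agent.MP_d3e607_co.Pin

open Finset

theorem main (k : ℕ) (d : Fin (k + 1) → ℕ) :
    (∀ (V : Type) [Finite V] (G : SimpleGraph V), Degen k G → Splits G d) ↔
      ∃ s : ℕ → Fin (k + 1), ∀ i t, ∃ r, t ≤ r ∧ r ≤ t + d i / 2 ∧ s r = i := by
  refine ⟨fun H => ?_, fun ⟨s, hs⟩ V _ G hG => upper hs hG⟩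
  obtain ⟨U, h1, h2⟩ := sched (win_of H)
  have : ∀ t, ∃ c, ∀ i, i ∉ U t → c = i := fun t => by
    have : (U t)ᶜ.card ≤ 1 := by
      have := h1 t
      rw [card_compl, Fintype.card_fin]
      omega
    obtain ⟨c, hc⟩ := card_le_one_iff_subset_singleton.1 this
    exact ⟨c, fun i hi => (mem_singleton.1 (hc (mem_compl.2 hi))).symm⟩
  choose s hs using this
  exact ⟨s, fun i t => (h2 i t).imp fun r h => ⟨h.1, h.2.1, hs r i h.2.2⟩⟩

end Pool.Agent.MP_d3e607_co.Pin
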