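import Pool.Agent.MP_d3e607_co.Pin.Defs

/-! A schedule gives a decomposition of every degenerate graph. -/

namespace Pool.Agent.MP_d3e607_co.Pin

open Finset Function

variable {V : Type}

theorem iter_fix (π : V → V) (φ : V → ℕ) (h : ∀ u, π u ≠ u → φ (π u) < φ u) :
    ∀ (n : ℕ) (v : V), φ v ≤ n → π (π^[n] v) = π^[n] v := by
  intro n
  induction n with
  | zero =>
    intro v hv
    by_contra hne
    have := h v hne
    omega
  | succ n ih =>
    intro v hv
    rw [Function.iterate_succ_apply]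
    by_cases hf : π v = v
    · rw [hf, Function.iterate_fixed hf, hf]
    · exact ih _ (by have := h v hf; omega)

theorem iter_step (π : V → V) (φ : V → ℕ) (h : ∀ u, π u ≠ u → φ (π u) < φ u) (n : ℕ) (v : V)
    (hv : φ v ≤ n) : π^[n] (π v) = π^[n] v := by
  rw [← Function.iterate_succ_apply, Function.iterate_succ_apply', iter_fix π φ h n v hv]

theorem graph_of_par (H : SimpleGraph V) (par : V → V) (φ : V → ℕ) (L : ℕ)
    (hL : ∀ v, φ v ≤ L) (hφ : ∀ u, par u ≠ u → φ (par u) < φ u)
    (hH : ∀ u v, H.Adj u v → par u = v ∨ par v = u) :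
    H.IsAcyclic ∧ ∀ u v, H.Reachable u v → H.dist u v ≤ 2 * L := by
  classical
  constructor
  · intro v c hc
    obtain ⟨x, hx, hmax⟩ := exists_max_image c.support.toFinset φ ⟨v, by simp⟩
    have hx' : x ∈ c.support := List.mem_toFinset.mp hx
    have hc' := hc.rotate hx'
    have key : ∀ y, y ∈ (c.rotate x hx').support → H.Adj x y → par x = y := by
      intro y hy hadj
      rcases hH x y hadj with h | h
      · exact h
      · have h1 := hφ y (by rw [h]; exact hadj.ne)
        have h2 := hmax y (List.mem_toFinset.mpr ((c.mem_support_rotate_iff x hx').mp hy))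
        rw [h] at h1
        omega
    exact hc'.snd_ne_penultimate
      ((key _ (SimpleGraph.Walk.getVert_mem_support _ _)
        (SimpleGraph.Walk.adj_snd hc'.not_nil)).symm.trans
      (key _ (SimpleGraph.Walk.getVert_mem_support _ _)
        (SimpleGraph.Walk.adj_penultimate hc'.not_nil).symm))
  · let π : V → V := fun u => if H.Adj u (par u) then par u else u
    have hπ : ∀ u, π u ≠ u → H.Adj u (π u) ∧ φ (π u) < φ u := by
      intro u hu
      by_cases h : H.Adj u (par u)
      · have h1 : π u = par u := if_pos h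
        rw [h1]
        exact ⟨h, hφ u h.ne'⟩
      · exact absurd (if_neg h) hu
    have hstep := fun u => iter_step π φ (fun u hu => (hπ u hu).2) L u (hL u)
    have hadj : ∀ u v, H.Adj u v → π^[L] u = π^[L] v := by
      intro u v h
      rcases hH u v h with h1 | h1
      · have : π u = v := by simp only [π, h1, h, if_true]
        rw [← this, hstep]
      · have : π v = u := by simp only [π, h1, h.symm, if_true]
        rw [← this, hstep]
    have hwalk : ∀ (n : ℕ) (u r : V), π^[n] u = r → ∃ p : H.Walk u r, p.length ≤ n := by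
      intro n
      induction n with
      | zero => rintro u r rfl; exact ⟨SimpleGraph.Walk.nil, le_rfl⟩
      | succ n ih =>
        intro u r h
        rw [Function.iterate_succ_apply] at h
        by_cases hu : π u = u
        · rw [hu] at h
          obtain ⟨p, hp⟩ := ih u r h
          exact ⟨p, by omega⟩
        · obtain ⟨p, hp⟩ := ih _ r h
          exact ⟨SimpleGraph.Walk.cons (hπ u hu).1 p, by simpa using hp⟩
    rintro u v ⟨w⟩
    have h1 : π^[L] u = π^[L] v := by
      induction w with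
      | nil => rfl
      | cons h _ ih => exact (hadj _ _ h).trans ih
    obtain ⟨p, hp⟩ := hwalk L u _ h1
    obtain ⟨p', hp'⟩ := hwalk L v _ rfl
    have := SimpleGraph.dist_le (p.append p'.reverse)
    rw [SimpleGraph.Walk.length_append, SimpleGraph.Walk.length_reverse] at this
    omega

theorem elim {K : Type} [DecidableEq V] [DecidableEq K] (v : V) (r : V → K) (L : V → K → ℕ)
    (n : ℕ) : ∀ (P : Finset V) (C : Finset K), P.card = n → n < C.card →
      ∃ i, (P.Nonempty → i ∈ P) ∧ ∃ g : K → V, (∀ j ∈ P, ∃ c ∈ C, g c = j) ∧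
        ∀ c, g c = v ∨ (g c ∈ P ∧ c ≠ r i ∧ L i c ≤ L (g c) c) := by
  induction n with
  | zero =>
    intro P C hP _
    rw [card_eq_zero.1 hP]
    exact ⟨v, by simp, fun _ => v, by simp, fun _ => .inl rfl⟩
  | succ n ih =>
    intro P C hP hC
    obtain ⟨c, hc, hc'⟩ := exists_mem_notMem_of_card_lt_card
      ((card_image_le (s := P) (f := r)).trans_lt (hP ▸ hC))
    obtain ⟨j, hj, hm⟩ := P.exists_max_image (L · c) (card_pos.1 (by omega))
    obtain ⟨i, hi, g, g1, g2⟩ := ih (P.erase j) (C.erase c) (by rw [card_erase_of_mem hj]; omega)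
      (by rw [card_erase_of_mem hc]; omega)
    obtain ⟨i', hi', e⟩ : ∃ i' ∈ P, (P.erase j).Nonempty → i' = i := by
      by_cases h : (P.erase j).Nonempty
      · exact ⟨i, mem_of_mem_erase (hi h), fun _ => rfl⟩
      · exact ⟨j, hj, fun h' => absurd h' h⟩
    refine ⟨i', fun _ => hi', update g c j, fun a ha => ?_, fun b => ?_⟩
    · by_cases h : a = j
      · exact ⟨c, hc, by rw [update_self, h]⟩
      · obtain ⟨b, hb, e⟩ := g1 a (mem_erase.2 ⟨h, ha⟩)
        exact ⟨b, mem_of_mem_erase hb, by rw [update_of_ne (ne_of_mem_erase hb), e]⟩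
    · by_cases h : b = c
      · rw [h, update_self]
        exact .inr ⟨hj, fun e => hc' (e ▸ mem_image_of_mem r hi'), hm _ hi'⟩
      · rw [update_of_ne h]
        refine (g2 b).imp_right fun h => ?_
        rw [e ⟨_, h.1⟩]
        exact ⟨mem_of_mem_erase h.1, h.2⟩

theorem times {k : ℕ} {G : SimpleGraph V} (hG : Degen k G) (s : ℕ → Fin (k + 1))
    (L : ℕ → Fin (k + 1) → ℕ) (hL : ∀ t c, c ≠ s t → L (t + 1) c < L t c) (n : ℕ) :
    ∀ S : Finset V, S.card = n → ∃ (τ : V → ℕ) (p : V → Fin (k + 1) → V),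
      (∀ u c, p u c ≠ u → u ∈ S ∧ p u c ∈ S ∧ L (τ u) c < L (τ (p u c)) c) ∧
      ∀ u ∈ S, ∀ v ∈ S, G.Adj u v → ∃ c, p u c = v ∨ p v c = u := by
  classical
  induction n with
  | zero =>
    intro S hS
    rw [card_eq_zero.1 hS]
    exact ⟨fun _ => 0, fun u _ => u, fun _ _ h => absurd rfl h, by simp⟩
  | succ n ih =>
    intro S hS
    obtain ⟨v, hv, hk⟩ := hG S (coe_nonempty.2 (card_pos.1 (by omega)))
    obtain ⟨τ, p, h1, h2⟩ := ih (S.erase v) (by rw [card_erase_of_mem hv]; omega)
    have e : G.neighborSet v ∩ S = ↑(S.filter (G.Adj v)) := by ext; simp [and_comm]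
    rw [e, Set.ncard_coe_finset] at hk
    obtain ⟨i, hi, g, g1, g2⟩ := elim v (fun u => s (τ u)) (fun u => L (τ u)) _
      (S.filter (G.Adj v)) univ rfl (by simpa using Nat.lt_succ_of_le hk)
    have k1 : ∀ w, G.Adj v w → w ∈ S → ∃ c, update p v g v c = w := fun w h hw => by
      obtain ⟨c, _, hc⟩ := g1 w (mem_filter.2 ⟨hw, h⟩)
      exact ⟨c, by rw [update_self, hc]⟩
    refine ⟨update τ v (τ i + 1), update p v g, fun u c h => ?_, fun u hu w hw h => ?_⟩
    · by_cases huv : u = v
      · subst huv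
        rw [update_self] at h ⊢
        obtain ⟨a, b, d⟩ := (g2 c).resolve_left h
        rw [update_self, update_of_ne h]
        exact ⟨hv, (mem_filter.1 a).1, (hL _ c b).trans_le d⟩
      · rw [update_of_ne huv] at h ⊢
        obtain ⟨a, b, d⟩ := h1 u c h
        rw [update_of_ne huv, update_of_ne (ne_of_mem_erase b)]
        exact ⟨mem_of_mem_erase a, mem_of_mem_erase b, d⟩
    · by_cases huv : u = v
      · subst huv
        exact (k1 w h hw).imp fun _ => .inl
      · by_cases hwv : w = v
        · subst hwv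
          exact (k1 u h.symm hu).imp fun _ => .inr
        · rw [update_of_ne huv, update_of_ne hwv]
          exact h2 u (mem_erase.2 ⟨huv, hu⟩) w (mem_erase.2 ⟨hwv, hw⟩) h

theorem upper {k : ℕ} {d : Fin (k + 1) → ℕ} {s : ℕ → Fin (k + 1)}
    (hs : ∀ i t, ∃ r, t ≤ r ∧ r ≤ t + d i / 2 ∧ s r = i) [Finite V] {G : SimpleGraph V}
    (hG : Degen k G) : Splits G d := by
  classical
  have := Fintype.ofFinite V
  have ex : ∀ t c, ∃ x, s (t + x) = c := fun t c => by
    obtain ⟨r, a, _, b⟩ := hs c t
    exact ⟨r - t, by rwa [Nat.add_sub_cancel' a]⟩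
  have bd : ∀ t c, Nat.find (ex t c) ≤ d c / 2 := fun t c => by
    obtain ⟨r, a, b, e⟩ := hs c t
    exact (Nat.find_min' (ex t c) (m := r - t) (by rwa [Nat.add_sub_cancel' a])).trans (by omega)
  obtain ⟨τ, p, h1, h2⟩ := times hG s (fun t c => Nat.find (ex t c)) (fun t c h => by
    have a := Nat.find_spec (ex t c)
    have b : Nat.find (ex t c) ≠ 0 := fun e => h (by rw [e] at a; exact a.symm)
    exact (Nat.find_min' (ex (t + 1) c) (m := Nat.find (ex t c) - 1)
      (by rwa [show t + 1 + (Nat.find (ex t c) - 1) = t + Nat.find (ex t c) by omega])).trans_lt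
      (by omega)) _ univ rfl
  have h3 : ∀ e : G.edgeSet, ∃ c, ∀ u v, e.1 = s(u, v) → p u c = v ∨ p v c = u := by
    rintro ⟨e, he⟩
    induction e using Sym2.ind with
    | _ a b =>
      obtain ⟨c, hc⟩ := h2 a (mem_univ a) b (mem_univ b) he
      refine ⟨c, fun u v h => ?_⟩
      rcases Sym2.eq_iff.1 h with ⟨rfl, rfl⟩ | ⟨rfl, rfl⟩
      exacts [hc, hc.symm]
  choose c hc using h3
  refine ⟨c, fun i => ?_⟩
  obtain ⟨a, b⟩ := graph_of_par (cls G c i) (p · i) (fun v => d i / 2 - Nat.find (ex (τ v) i))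
    (d i / 2) (fun v => Nat.sub_le _ _) (fun u hu => by
      have := (h1 u i hu).2.2
      have := bd (τ (p u i)) i
      omega) fun u v h => by
      obtain ⟨⟨he, rfl⟩, _⟩ := (SimpleGraph.fromEdgeSet_adj _).1 h
      exact hc _ u v rfl
  exact ⟨a, fun u v h => (b u v h).trans (by omega)⟩

end Pool.Agent.MP_d3e607_co.Pin
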